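import Pool.Agent.Helper18.EW.Goals2
import Pool.Agent.Helper63.Hw.H1
import Pool.Agent.Helper32.Hw.H2
import Pool.Agent.Helper62.Hw.H4

/-! Packet Z15 of project EW (MP_d3128a_ag, helper18): the zone theorem. -/

set_option autoImplicit false

namespace Pool.Agent.Helper50.EW

open Finset
open Pool.Agent.Helper43.Hw (T na va lz Play aa ac sc oo sk U Dd Sd Pn nx bb np T_zero GoalH2 GoalH4)
open Pool.Agent.Helper43.Hw.PkH2 (kmono)
open Pool.Agent.Helper18.EW

variable {μ R N K b β s : ℕ} {W : ℤ} {L o k D S n κ x : ℕ → ℕ}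

/-- `κ` reaches `N` at the row `r ≥ s` after exact rows -/
def Fin' (μ R N s : ℕ) (L κ x : ℕ → ℕ) (r : ℕ) : Prop :=
  s ≤ r ∧ r < R ∧ κ r = N ∧ (∀ z < r, lz μ R N κ x z = L z) ∧ lz μ R N κ x r ≤ L r

theorem L_mono (he : Ext μ R N K b β s W L o k D S n) {y z : ℕ} (hy : s ≤ y) (hyz : y ≤ z)
    (hz : z < R) : L y ≤ L z := by
  induction z, hyz using Nat.le_induction with
  | base => exact le_rfl
  | succ z hyz ih =>
    have e1 := he.inc z (hy.trans hyz) hz
    have e2 := ih (by omega)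
    omega

theorem sum_L (he : Ext μ R N K b β s W L o k D S n) (hs : s + 1 ≤ R) :
    ∑ z ∈ range R, (L z : ℤ) = N * T μ + W := by
  have e1 := he.tot (R - 1) (by omega) (by omega)
  have e2 := he.Dn (R - 1) (by omega) (by omega)
  have e3 := he.Sq (R - 1) (by omega) (by omega)
  have e4 : R - 1 - (R - 1) = 0 := by omega
  have e5 : R - (R - 1) = 1 := by omega
  rw [e4, T_zero, Nat.zero_mul] at e2
  rw [e4, Nat.zero_mul] at e3
  have e6 : D (R - 1) = 0 := Nat.le_zero.1 e2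
  have e7 : S (R - 1) = 0 := by omega
  rw [e4, e5, e6, e7, T_zero] at e1
  have e8 : R = (R - 1) + 1 := by omega
  rw [e8, Finset.sum_range_succ]
  push_cast at e1
  linarith

theorem tail (hμ : 1 ≤ μ) (hR : μ + 2 ≤ R) (h4 : GoalH4) (hp : Play μ R N κ x)
    (he : Ext μ R N K b β s W L o k D S n) {r : ℕ}
    (h : Fin' μ R N s L κ x r) : ∀ z < R, lz μ R N κ x z ≤ L z := by
  obtain ⟨hs, hr, hκ, hex, hl⟩ := h
  have h1 : ∀ z, r ≤ z → z < R → lz μ R N κ x z ≤ L r := by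
    intro z hz
    induction z, hz using Nat.le_induction with
    | base => intro _; exact hl
    | succ z hz ih =>
      intro hzR
      have hkz : κ z = N :=
        le_antisymm (hp.le z (by omega)) (hκ ▸ kmono hp hz (by omega))
      have e1 := ((h4 μ R N κ x hμ hR hp z hzR).2.2.1) hkz
      have e2 := ih (by omega)
      omega
  intro z hz
  rcases Nat.lt_or_ge z r with h | h
  · exact (hex z h).le
  · exact (h1 z h hz).trans (L_mono he hs h hz)

/-- One step of the greedy play, if the next load is small. -/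
theorem step (hp : Play μ R N κ x) (hg : Gr μ R N (s - 1) L κ x) {y : ℕ} (hsy : s ≤ y + 1)
    (hy2 : y + 2 < R) (hex : Ex μ R N L κ x y) (hbb : bb μ R N κ x y ≤ L (y + 1)) :
    Ex μ R N L κ x (y + 1) ∨ Fin' μ R N s L κ x (y + 1) := by
  obtain ⟨hyR, hκN, hlz⟩ := hex
  have hle := hp.le (y + 1) (by omega)
  have hlz' : ∀ z < y + 1, lz μ R N κ x z = L z := fun z hz => hlz z (by omega)
  have key : lz μ R N κ x (y + 1) = L (y + 1) ∨
      (κ (y + 1) = N ∧ lz μ R N κ x (y + 1) ≤ L (y + 1)) := by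
    rcases hg y (by omega) hy2 hκN with ⟨h1, h2, -⟩ | ⟨-, h⟩
    · left
      omega
    · exact h
  rcases key with h | ⟨h, h'⟩
  · rcases Nat.lt_or_ge (κ (y + 1)) N with hN | hN
    · left
      refine ⟨by omega, hN, fun z hz => ?_⟩
      rcases Nat.lt_or_ge z (y + 1) with hz' | hz'
      · exact hlz' z hz'
      · have : z = y + 1 := by omega
        rw [this, h]
    · right
      exact ⟨hsy, by omega, le_antisymm hle hN, hlz', by omega⟩
  · right
    exact ⟨hsy, by omega, h, hlz', h'⟩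

/-- The load of the next row if nothing is done, in the zone. -/
theorem bb_zone (h4 : GoalH4) (hμ : 1 ≤ μ) (hR : μ + 2 ≤ R) (hp : Play μ R N κ x) {y : ℕ}
    (hy2 : y + 1 < R) (hy : R ≤ y + 1 + μ) (hex : Ex μ R N L κ x y) :
    bb μ R N κ x y + oo μ R κ x y + sk μ κ x y = L y + 1 + (N - 1 - κ y) := by
  obtain ⟨hyR, hκN, hlz⟩ := hex
  have e1 := (h4 μ R N κ x hμ hR hp y hy2).2.2.2.1 hκN
  rw [hlz y le_rfl] at e1
  have e2 : na μ R (y + 1) = na μ R y + 1 := by unfold na; omega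
  have e3 : nx μ R x y = x y + 1 := by
    unfold nx
    by_cases h : 0 < x y
    · rw [if_pos h]
    · rw [if_neg h, e2]
      have := hp.nat y hyR hκN
      omega
  rw [e2, e3, Nat.mul_add, Nat.mul_one] at e1
  omega

/-- The pending skips at the row `y`. -/
theorem Pn_le (hR : μ + 2 ≤ R) (hp : Play μ R N κ x) {y : ℕ} (hyR : y < R)
    (hμy : μ ≤ y) (w : ℕ) (hw : w = R - 1 - y) :
    Pn μ R x y ≤ w + ((range y).filter (fun t => R - 1 - μ < t ∧ κ t < κ y ∧ 0 < x t ∧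
      0 < U μ R x t ∧ U μ R x t ≤ R - 1 - y)).card + kk μ R κ x y := by
  subst hw
  unfold Pn kk
  have a1 : (range y).filter (fun t => 0 < x t ∧ 0 < U μ R x t ∧ U μ R x t ≤ R - 1 - y) ⊆
      (Ioc (R - 1 - μ - (R - 1 - y)) (R - 1 - μ) ∪
        (range y).filter (fun t => R - 1 - μ < t ∧ κ t < κ y ∧ 0 < x t ∧
          0 < U μ R x t ∧ U μ R x t ≤ R - 1 - y)) ∪
        (range y).filter (fun z => κ z = κ y ∧ na μ R z < x z) := by
    intro t ht
    simp only [mem_filter, mem_range, mem_union, mem_Ioc] at ht ⊢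
    obtain ⟨ht1, ht2, ht3, ht4⟩ := ht
    rcases Nat.lt_or_ge (R - 1 - μ) t with h | h
    · rcases Nat.lt_or_ge (κ t) (κ y) with h' | h'
      · exact Or.inl (Or.inr ⟨ht1, h, h', ht2, ht3, ht4⟩)
      · refine Or.inr ⟨ht1, le_antisymm (kmono hp ht1.le hyR) h', ?_⟩
        unfold U at ht3
        unfold na
        omega
    · refine Or.inl (Or.inl ⟨?_, h⟩)
      unfold U at ht3 ht4
      omega
  refine (Finset.card_le_card a1).trans ((Finset.card_union_le _ _).trans ?_)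
  refine Nat.add_le_add_right ((Finset.card_union_le _ _).trans ?_) _
  refine Nat.add_le_add_right ?_ _
  rw [Nat.card_Ioc]
  omega

theorem goalZ15 (h10 : GoalZ10) (h10a : GoalZ10a) (h10b : GoalZ10b) (h11 : GoalZ11)
    (h12 : GoalZ12) : GoalZ15 := by
  have h1 := Pool.Agent.Helper43.Hw.PkH1.goalH1
  have h2 : GoalH2 := Pool.Agent.Helper43.Hw.PkH2.goalH2 h1
  have h4 : GoalH4 := Pool.Agent.Helper43.Hw.PkH4.goalH4 h1
  intro μ R N K b l Lg q β s w W L o k D S n κ x hpar hβ he hp hg hs1 hexs hbbs hpau hnp hw1 hsw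
    hwμ hD hwa hwb hwc
  have hμ : 1 ≤ μ := by omega
  have hR : μ + 2 ≤ R := by
    have := hpar.R1
    omega
  have hl := hpar.l1
  -- the first case
  have hfirst : (∃ r, Fin' μ R N s L κ x r) → 0 ≤ W ∧ ∀ z < R, lz μ R N κ x z ≤ L z := by
    rintro ⟨r, hr⟩
    have e1 := tail hμ hR h4 hp he hr
    refine ⟨?_, e1⟩
    have e2 := sum_L he (by omega)
    have e3 : (∑ z ∈ range R, (lz μ R N κ x z : ℤ)) ≤ ∑ z ∈ range R, (L z : ℤ) :=
      Finset.sum_le_sum fun z hz => by exact_mod_cast e1 z (mem_range.1 hz)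
    have e4 : (∑ z ∈ range R, (lz μ R N κ x z : ℤ)) = N * T μ := by
      exact_mod_cast (h2 μ R N κ x hμ hR hp).2.2.2
    linarith
  have hzon : ∀ y, s ≤ y → y + w + 1 ≤ R → Ex μ R N L κ x y →
      (∀ z, s ≤ z → z < y → b * l + (R - 1 - z) + 2 ^ 14 * l * (N - κ z) ≤
        2 ^ 14 * l * (β + o z + oo μ R κ x z)) →
      Zon μ R N K b l Lg q β s W L o k D S n κ x y := by
    intro y hsy hy hex hih
    have hwy : w ≤ R - 1 - y := by omega
    have hw2 : b * l + w ≤ b * l + (R - 1 - y) := by omega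
    refine ⟨hpar, he, hp, hex, hsy, by omega, hpau, hnp, hD y hsy (by omega) hwy, ?_, ?_, hih⟩
    · have e1 := Nat.mul_le_mul hwy hw2
      have e2 : 2 ^ 21 * μ ≤ 2 ^ 24 * μ := Nat.mul_le_mul_right _ (by norm_num)
      exact e2.trans (hwa.trans e1)
    · refine hwb.trans ?_
      exact_mod_cast Nat.mul_le_mul (Nat.pow_le_pow_left hwy 2) hw2
  have hmain : ∀ y, s ≤ y → y + w + 1 ≤ R → (Ex μ R N L κ x y ∧
      ∀ z, s ≤ z → z < y → b * l + (R - 1 - z) + 2 ^ 14 * l * (N - κ z) ≤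
        2 ^ 14 * l * (β + o z + oo μ R κ x z)) ∨ ∃ r, Fin' μ R N s L κ x r := by
    intro y hy
    induction y, hy using Nat.le_induction with
    | base =>
      intro _
      have hss : s - 1 + 1 = s := by omega
      have e1 := step hp hg (y := s - 1) (by omega) (by omega) hexs (by rw [hss]; exact hbbs)
      rw [hss] at e1
      rcases e1 with h | h
      · exact Or.inl ⟨h, fun z hz hz' => by omega⟩
      · exact Or.inr ⟨_, h⟩
    | succ y hy ih =>
      intro hyR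
      rcases ih (by omega) with ⟨hex, hih⟩ | h
      swap
      · exact Or.inr h
      have hz10 := h10 μ R N K b l Lg q β s W L o k D S n κ x y (hzon y hy (by omega) hex hih)
      have hoo : N - κ y ≤ β + o y + oo μ R κ x y := by
        have e1 : 2 ^ 14 * l * (N - κ y) ≤ 2 ^ 14 * l * (β + o y + oo μ R κ x y) := by omega
        exact Nat.le_of_mul_le_mul_left e1 (by positivity)
      have hJs := he.Js
      have hbb := bb_zone h4 hμ hR hp (show y + 1 < R by omega) (by omega) hex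
      have hinc := he.inc y hy (by omega)
      have hκN := hex.2.1
      rcases step hp hg (by omega) (by omega) hex (by omega) with h | h
      · left
        refine ⟨h, fun z hz hz' => ?_⟩
        rcases Nat.lt_or_ge z y with h' | h'
        · exact hih z hz h'
        · have : z = y := by omega
          rw [this]
          exact hz10
      · exact Or.inr ⟨_, h⟩
  rcases hmain (R - 1 - w) (by omega) (by omega) with ⟨hex, hih⟩ | h
  swap
  · exact Or.inl (hfirst h)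
  have hZ := hzon (R - 1 - w) (by omega) (by omega) hex hih
  obtain ⟨y, hy⟩ : ∃ y, y = R - 1 - w := ⟨_, rfl⟩
  rw [← hy] at hex hih hZ
  have hyw : R - 1 - y = w := by omega
  have hyw' : R - y = w + 1 := by omega
  obtain ⟨-, hq, -⟩ := h10a μ R N K b l Lg q β s W L o k D S n κ x y hZ
  obtain ⟨hac, hkk, hu⟩ := h10b μ R N K b l Lg q β s W L o k D S n κ x y hZ
  have hμy : μ ≤ y := by
    have e1 := he.Js
    have e2 := hpar.R1
    omega
  have hP := Pn_le hR hp (show y < R by omega) hμy w hyw.symm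
  obtain ⟨q', hq'⟩ : ∃ q', q' = ((range y).filter (fun t => R - 1 - μ < t ∧ κ t < κ y ∧ 0 < x t ∧
      0 < U μ R x t ∧ U μ R x t ≤ R - 1 - y)).card := ⟨_, rfl⟩
  rw [← hq'] at hq hP
  rw [hyw] at hq hkk hu
  -- the parameters
  have hL1 := hpar.L1
  have hb1 := hpar.b1
  have hKeq := hpar.hK
  have hb2 := hpar.b2
  have hb : 2 ^ 40 ≤ b := le_trans (by
    have : 2 ^ 40 * 1 ≤ 2 ^ 40 * Lg := Nat.mul_le_mul_left _ hL1
    simpa using this) hb1
  have hkw : kk μ R κ x y ≤ w := by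
    have e1 : kk μ R κ x y * (2 ^ 14 * l) ≤ w * (2 ^ 14 * l) := by
      calc kk μ R κ x y * (2 ^ 14 * l) ≤ kk μ R κ x y * (b * l + w) := by
            refine Nat.mul_le_mul_left _ (le_trans ?_ (Nat.le_add_right _ _))
            exact Nat.mul_le_mul_right _ (le_trans (by norm_num) hb)
        _ ≤ 2 ^ 14 * l * (x y - na μ R y) := hkk
        _ ≤ 2 ^ 14 * l * w := Nat.mul_le_mul_left _ hu.le
        _ = w * (2 ^ 14 * l) := Nat.mul_comm _ _
    exact Nat.le_of_mul_le_mul_right e1 (by positivity)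
  have hKl : 2 ^ 31 * (K * l) ≤ μ := by
    refine le_trans ?_ hb2
    rw [hKeq]
    have e1 : b * (q + 1) * l ≤ b * (q + 1) ^ 2 * l :=
      Nat.mul_le_mul_right _ (Nat.mul_le_mul_left _ (Nat.le_self_pow (by norm_num) _))
    calc 2 ^ 31 * (b * (q + 1) * l) ≤ 2 ^ 31 * (b * (q + 1) ^ 2 * l) := Nat.mul_le_mul_left _ e1
      _ = 2 ^ 31 * b * (q + 1) ^ 2 * l := by ring
  have hLgb : 2 ^ 40 * (l * w * Lg) ≤ l * w * b := by
    calc 2 ^ 40 * (l * w * Lg) = l * w * (2 ^ 40 * Lg) := by ring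
      _ ≤ l * w * b := Nat.mul_le_mul_left _ hb1
  have hlwb : 2 ^ 40 * (l * w) ≤ l * w * b := by
    calc 2 ^ 40 * (l * w) = l * w * 2 ^ 40 := by ring
      _ ≤ l * w * b := Nat.mul_le_mul_left _ hb
  have hlw : l ≤ l * w := Nat.le_mul_of_pos_right _ hw1
  have hlb : b * l ≤ l * w * b := by
    calc b * l = l * b := Nat.mul_comm _ _
      _ ≤ l * w * b := Nat.mul_le_mul_right _ hlw
  have hlP : l * Pn μ R x y ≤ l * w + l * q' + l * kk μ R κ x y := by
    calc l * Pn μ R x y ≤ l * (w + q' + kk μ R κ x y) := Nat.mul_le_mul_left _ hP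
      _ = l * w + l * q' + l * kk μ R κ x y := by ring
  have hlk : l * kk μ R κ x y ≤ l * w := Nat.mul_le_mul_left _ hkw
  -- the estimate
  have hest : l * (2 ^ 24 * (Pn μ R x y + K + kk μ R κ x y + 4 * w + 2) + (w + 1) * b) <
      2 ^ 4 * (2 ^ 25 * μ + b * l * w) := by
    have e1 : l * (2 ^ 24 * (Pn μ R x y + K + kk μ R κ x y + 4 * w + 2) + (w + 1) * b) =
        2 ^ 24 * (l * Pn μ R x y + K * l + l * kk μ R κ x y + 4 * (l * w) + 2 * l) +
          l * w * b + b * l := by ring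
    have e2 : 48 * 2 ^ 14 * l * w * Lg = 48 * 2 ^ 14 * (l * w * Lg) := by ring
    have e3 : b * l * w = l * w * b := by ring
    have e4 : 3 * K * l = 3 * (K * l) := by ring
    rw [e2, e4] at hq
    rw [e1, e3]
    obtain ⟨A, hA⟩ : ∃ A, A = l * w * b := ⟨_, rfl⟩
    obtain ⟨B, hB⟩ : ∃ B, B = l * w * Lg := ⟨_, rfl⟩
    obtain ⟨C, hC⟩ : ∃ C, C = l * w := ⟨_, rfl⟩
    obtain ⟨E, hE⟩ : ∃ E, E = K * l := ⟨_, rfl⟩
    obtain ⟨F, hF⟩ : ∃ F, F = l * Pn μ R x y := ⟨_, rfl⟩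
    obtain ⟨G, hG⟩ : ∃ G, G = l * kk μ R κ x y := ⟨_, rfl⟩
    obtain ⟨H, hH⟩ : ∃ H, H = b * l := ⟨_, rfl⟩
    obtain ⟨I, hI⟩ : ∃ I, I = l * q' := ⟨_, rfl⟩
    rw [← hA, ← hE, ← hF, ← hG, ← hC, ← hH]
    rw [← hA, ← hH] at hlb
    rw [← hB, ← hA] at hLgb
    rw [← hA, ← hC] at hlwb
    rw [← hC] at hlw
    rw [← hE] at hKl
    rw [← hF, ← hC, ← hI, ← hG] at hlP
    rw [← hG, ← hC] at hlk
    rw [← hI, ← hE, ← hB] at hq
    norm_num at *
    omega
  have hlz : (0 : ℤ) < l := by exact_mod_cast hl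
  have hest2 : ((w * (2 ^ 24 * (Pn μ R x y + K + kk μ R κ x y + 4 * w + 2) + (w + 1) * b) : ℕ) : ℤ)
      < 2 ^ 24 * |W| := by
    have c1 : w * (l * (2 ^ 24 * (Pn μ R x y + K + kk μ R κ x y + 4 * w + 2) + (w + 1) * b)) <
        w * (2 ^ 4 * (2 ^ 25 * μ + b * l * w)) := Nat.mul_lt_mul_of_pos_left hest hw1
    have c1' : ((w * (l * (2 ^ 24 * (Pn μ R x y + K + kk μ R κ x y + 4 * w + 2) +
        (w + 1) * b)) : ℕ) : ℤ) < ((w * (2 ^ 4 * (2 ^ 25 * μ + b * l * w)) : ℕ) : ℤ) := by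
      exact_mod_cast c1
    have c2 : ((w * (2 ^ 4 * (2 ^ 25 * μ + b * l * w)) : ℕ) : ℤ) =
        2 ^ 4 * ((w * (2 ^ 25 * μ + b * l * w) : ℕ) : ℤ) := by
      push_cast
      ring
    have c3 : (l : ℤ) * ((w * (2 ^ 24 * (Pn μ R x y + K + kk μ R κ x y + 4 * w + 2) +
        (w + 1) * b) : ℕ) : ℤ) = ((w * (l * (2 ^ 24 * (Pn μ R x y + K + kk μ R κ x y + 4 * w + 2) +
        (w + 1) * b)) : ℕ) : ℤ) := by
      push_cast
      ring
    have c4 : (l : ℤ) * ((w * (2 ^ 24 * (Pn μ R x y + K + kk μ R κ x y + 4 * w + 2) +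
        (w + 1) * b) : ℕ) : ℤ) < l * (2 ^ 24 * |W|) := by
      rw [c3]
      refine lt_of_lt_of_le c1' ?_
      rw [c2]
      calc (2 : ℤ) ^ 4 * ((w * (2 ^ 25 * μ + b * l * w) : ℕ) : ℤ) ≤
          2 ^ 4 * (2 ^ 20 * l * |W|) := mul_le_mul_of_nonneg_left hwc (by norm_num)
        _ = l * (2 ^ 24 * |W|) := by ring
    exact lt_of_mul_lt_mul_left c4 hlz.le
  rcases le_or_gt 0 W with h | h
  · left
    rw [abs_of_nonneg h] at hest2
    refine ⟨h, ?_⟩
    refine h11 μ R N K b β s (kk μ R κ x y) W L o k D S n κ x y hμ hR he hp hg hex (by omega)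
      (by omega) hac le_rfl ?_
    rw [hyw, hyw']
    exact hest2
  · right
    rw [abs_of_neg h] at hest2
    refine ⟨h.le, ?_⟩
    refine h12 μ R N K b β s W L o k D S n κ x y hμ hR hβ he hp hg hex (by omega) (by omega) ?_
    rw [hyw, hyw']
    have c1 : w * (2 ^ 24 * (Pn μ R x y + K + 2 * w) + (w + 1) * b) ≤
        w * (2 ^ 24 * (Pn μ R x y + K + kk μ R κ x y + 4 * w + 2) + (w + 1) * b) := by
      refine Nat.mul_le_mul_left _ (Nat.add_le_add_right (Nat.mul_le_mul_left _ ?_) _)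
      omega
    have c2 : ((w * (2 ^ 24 * (Pn μ R x y + K + 2 * w) + (w + 1) * b) : ℕ) : ℤ) ≤
        ((w * (2 ^ 24 * (Pn μ R x y + K + kk μ R κ x y + 4 * w + 2) + (w + 1) * b) : ℕ) : ℤ) := by
      exact_mod_cast c1
    linarith

end Pool.Agent.Helper50.EW
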